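import Pool.Agent.helper75.LC.Spec
import Pool.Agent.helper81.MX.D02
import Pool.Agent.helper81.MX.A08
import Pool.Agent.helper81.MX.A09

set_option autoImplicit false

namespace Pool.Agent.LC

open MX MG

/-- evaluation at `x` modulo `[W,x]` -/
def CYC_e {A W : Type} [Group A] [AddCommGroup W] [DistribMulAction A W] (x : A) :
    (Der A W) →+ W ⧸ cmm A W x where
  toFun α := QuotientAddGroup.mk ((α : A → W) x)
  map_zero' := by simp
  map_add' := by intro a b; simp

theorem CYC_pow {A W : Type} [Group A] [AddCommGroup W] [DistribMulAction A W] (x : A) (u : W)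
    (m : ℕ) : x ^ m • u - u ∈ cmm A W x := by
  induction m with
  | zero =>
    rw [pow_zero, one_smul, sub_self]
    exact (cmm A W x).zero_mem
  | succ m ih =>
    have h1 : x ^ (m + 1) • u - u = (x • (x ^ m • u) - x ^ m • u) + (x ^ m • u - u) := by
      rw [pow_succ', mul_smul]
      abel
    rw [h1]
    exact (cmm A W x).add_mem ⟨_, rfl⟩ ih

theorem CYC_dpow {A W : Type} [Group A] [AddCommGroup W] [DistribMulAction A W] (x : A)
    (d : A → W) (hd : ∀ g h : A, d (g * h) = d g + g • d h) (m : ℕ) :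
    d (x ^ m) - m • d x ∈ cmm A W x := by
  induction m with
  | zero =>
    have h1 : d 1 = 0 := by
      have := hd 1 1
      rw [mul_one, one_smul] at this
      exact left_eq_add.mp this
    rw [pow_zero, h1, zero_smul, sub_zero]
    exact (cmm A W x).zero_mem
  | succ m ih =>
    have h1 : d (x ^ (m + 1)) - (m + 1) • d x = (d (x ^ m) - m • d x) + (x ^ m • d x - d x) := by
      rw [pow_succ, hd, add_smul, one_smul]
      abel
    rw [h1]
    exact (cmm A W x).add_mem ih (CYC_pow x _ m)

theorem CYC_stable {A W : Type} [Group A] [AddCommGroup W] [DistribMulAction A W] [Finite W]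
    (x c : A) (m : ℕ) (hx : x = c * x ^ m * c⁻¹) (z : W) (hz : z ∈ cmm A W x) :
    c • z ∈ cmm A W x := by
  have hmap : ∀ z ∈ cmm A W x, c⁻¹ • z ∈ cmm A W x := by
    rintro _ ⟨u, rfl⟩
    have h1 : c⁻¹ • (x • u - u) = x ^ m • (c⁻¹ • u) - c⁻¹ • u := by
      rw [smul_sub]
      congr 1
      rw [← mul_smul, ← mul_smul]
      congr 1
      conv_lhs => rw [hx]
      group
    rw [h1]
    exact CYC_pow x _ m
  let f : cmm A W x → cmm A W x := fun z => ⟨c⁻¹ • z.1, hmap z.1 z.2⟩
  have hf : Function.Injective f := by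
    intro a b hab
    have h1 : c⁻¹ • a.1 = c⁻¹ • b.1 := congrArg Subtype.val hab
    exact Subtype.ext (smul_left_cancel _ h1)
  obtain ⟨z', hz'⟩ := (Finite.injective_iff_surjective.1 hf) ⟨z, hz⟩
  have h2 : c⁻¹ • z'.1 = z := congrArg Subtype.val hz'
  rw [← h2, smul_inv_smul]
  exact z'.2

theorem CYC_conj {A W : Type} [Group A] [AddCommGroup W] [DistribMulAction A W] [Finite W]
    (x c : A) (m : ℕ) (hx : x = c * x ^ m * c⁻¹) (d : A → W)
    (hd : ∀ g h : A, d (g * h) = d g + g • d h) : m • (c • d x) - d x ∈ cmm A W x := by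
  have h1 : d 1 = 0 := by
    have := hd 1 1
    rw [mul_one, one_smul] at this
    exact left_eq_add.mp this
  have h2 : c • d c⁻¹ = - d c := by
    have h3 := hd c c⁻¹
    rw [mul_inv_cancel, h1] at h3
    exact (neg_eq_of_add_eq_zero_right h3.symm).symm
  have h3 : d x = d c + c • d (x ^ m) - x • d c := by
    have h4 : d (c * x ^ m * c⁻¹) = d c + c • d (x ^ m) + (c * x ^ m) • d c⁻¹ := by
      rw [hd, hd]
    have h5 : (c * x ^ m) • d c⁻¹ = - (x • d c) := by
      have h6 : c * x ^ m = x * c := by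
        conv_rhs => rw [hx]
        group
      rw [h6, mul_smul, h2, smul_neg]
    rw [← hx, h5] at h4
    rw [h4]
    abel
  have h6 := CYC_stable x c m hx _ (CYC_dpow x d hd m)
  have h7 : m • (c • d x) - d x = (x • d c - d c) - c • (d (x ^ m) - m • d x) := by
    rw [smul_sub, smul_comm c m (d x)]
    conv_lhs => rw [h3]
    have h8 : m • (c • (d c + c • d (x ^ m) - x • d c)) = m • (c • d x) := by rw [← h3]
    rw [h8]
    abel
  rw [h7]
  exact (cmm A W x).sub_mem ⟨_, rfl⟩ h6

theorem CYC_inner {A W : Type} [Group A] [AddCommGroup W] [DistribMulAction A W] [Finite A]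
    (p : ℕ) [Fact p.Prime] (hp : ∀ w : W, p • w = 0) (L : Subgroup A) (hL : L.Normal)
    (hfix : ∀ w : W, (∀ l ∈ L, l • w = w) → w = 0) (x : L)
    (hQ : ¬ p ∣ (Subgroup.zpowers x).index) (d : A → W) (hd' : d ∈ Der A W)
    (hx : d x ∈ cmm A W (x : A)) : ∃ v : W, ∀ h : A, d h = h • v - v := by
  have hd : ∀ g h : A, d (g * h) = d g + g • d h := hd'
  obtain ⟨u, hu⟩ := hx
  set β : A → W := fun g => d g - (g • u - u) with hβ
  have hβd : ∀ g h : A, β (g * h) = β g + g • β h := by
    intro g h
    simp only [hβ]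
    rw [hd, smul_sub, smul_sub, mul_smul]
    abel
  have hβx : β x = 0 := by simp only [hβ]; rw [hu, sub_self]
  have hβ1 : β 1 = 0 := by
    have := hβd 1 1
    rw [mul_one, one_smul] at this
    exact left_eq_add.mp this
  have hpow : ∀ y : L, y ∈ Subgroup.zpowers x → β (y : A) = 0 := by
    intro y hy
    rw [Subgroup.zpowers_eq_closure] at hy
    induction hy using Subgroup.closure_induction with
    | mem z hz => rw [Set.mem_singleton_iff.mp hz, hβx]
    | one => exact hβ1
    | mul a b _ _ ha hb =>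
      rw [Subgroup.coe_mul, hβd, ha, hb, smul_zero, add_zero]
    | inv a _ ha =>
      have h2 := hβd (a : A) (a : A)⁻¹
      rw [mul_inv_cancel, hβ1, ha, zero_add] at h2
      have h3 := congrArg (fun w => (a : A)⁻¹ • w) h2
      simp only [smul_zero, inv_smul_smul] at h3
      exact h3.symm
  obtain ⟨v, hv⟩ := inner_of_index (A := L) (W := W) p hp (Subgroup.zpowers x) hQ
    (fun l : L => d (l : A)) (fun g h => hd _ _) ⟨u, fun y hy => by
      have := hpow y hy
      simp only [hβ] at this
      exact sub_eq_zero.mp this⟩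
  exact ⟨v, inner_of_normal L hfix d hd' v fun k hk => hv ⟨k, hk⟩⟩

theorem CYC (hBMO : BMO_stmt) (hLOW : LOW_stmt) : CYC_stmt := by
  classical
  intro A W _ _ _ _ _ p _ hp hnt L hL hfix x hxp hQ
  obtain ⟨hB1, hB2⟩ := hBMO
  by_cases hx1 : x = 1
  · have hall : AllInner A W := by
      intro d hd
      refine CYC_inner p hp L hL hfix x hQ d hd ?_
      have h0 : d (1 * 1) = d 1 + (1 : A) • d 1 := hd 1 1
      rw [mul_one, one_smul] at h0
      have h1 : d 1 = 0 := left_eq_add.mp h0
      rw [hx1, Subgroup.coe_one, h1]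
      exact (cmm A W 1).zero_mem
    rw [h1_of_allInner hall]
    exact hB2 A W p hnt
  · have hx1' : (x : A) ≠ 1 := fun h => hx1 (Subtype.ext h)
    have hfin : Finite (Der A W) :=
      Finite.of_injective (fun a : Der A W => (a : A → W)) Subtype.val_injective
    have hker : (CYC_e (W := W) (x : A)).ker ≤ (Inn A W).addSubgroupOf (Der A W) := by
      rintro ⟨α, hα⟩ hk
      rw [AddMonoidHom.mem_ker] at hk
      have hk2 : (QuotientAddGroup.mk (α x) : W ⧸ cmm A W (x : A)) = 0 := hk
      rw [QuotientAddGroup.eq_zero_iff] at hk2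
      obtain ⟨v, hv⟩ := CYC_inner p hp L hL hfix x hQ α hα hk2
      rw [AddSubgroup.mem_addSubgroupOf]
      refine ⟨v, ?_⟩
      funext h
      exact (hv h).symm
    have hle : h1 A W ≤ Nat.card (CYC_e (W := W) (x : A)).range := by
      rw [← AddSubgroup.index_ker]
      rw [h1, AddSubgroup.relIndex]
      exact AddSubgroup.index_antitone hker
    obtain ⟨w0, hw0⟩ := exists_ne (0 : W)
    set E : Set (W ⧸ cmm A W (x : A)) :=
      ((CYC_e (W := W) (x : A)).range : Set (W ⧸ cmm A W (x : A))) with hE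
    set s : Set W := (Quotient.out : W ⧸ cmm A W (x : A) → W) ''
      (E \ {(0 : W ⧸ cmm A W (x : A))}) with hs
    have hsc : s.ncard = E.ncard - 1 := by
      rw [hs]
      have e1 : ((Quotient.out : W ⧸ cmm A W (x : A) → W) ''
          (E \ {(0 : W ⧸ cmm A W (x : A))})).ncard =
          (E \ {(0 : W ⧸ cmm A W (x : A))}).ncard :=
        Set.ncard_image_of_injective _ Quotient.out_injective
      rw [e1, Set.ncard_sdiff_singleton_of_mem]
      exact (CYC_e (W := W) (x : A)).range.zero_mem
    have hout : ∀ c : W ⧸ cmm A W (x : A),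
        (QuotientAddGroup.mk (Quotient.out c) : W ⧸ cmm A W (x : A)) = c :=
      fun c => Quotient.out_eq c
    have hxp' : ∃ k : ℕ, (x : A) ^ (p ^ k) = 1 := by
      obtain ⟨k, hk⟩ := hxp
      exact ⟨k, by rw [← Subgroup.coe_pow, hk, Subgroup.coe_one]⟩
    have h2 := hLOW A W p (x : A) hx1' hxp' s {w0} (by
      rintro w ⟨c, ⟨hc1, hc2⟩, rfl⟩ hw
      apply hc2
      rw [Set.mem_singleton_iff, ← hout c, QuotientAddGroup.eq_zero_iff]
      exact hw) (by
      rintro w ⟨e, ⟨⟨⟨α, hα⟩, hc1⟩, hc2⟩, rfl⟩ w' ⟨e', ⟨hc1', hc2'⟩, rfl⟩ c m hm hcx hgw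
      have h3 : (QuotientAddGroup.mk (α x) : W ⧸ cmm A W (x : A)) =
          QuotientAddGroup.mk (Quotient.out e) := by
        rw [hout e]
        exact hc1
      rw [QuotientAddGroup.eq] at h3
      have h4 := CYC_conj (x : A) c m hcx α hα
      have h5 : m • (c • (-α x + Quotient.out e)) ∈ cmm A W (x : A) :=
        (cmm A W (x : A)).nsmul_mem (CYC_stable (x : A) c m hcx _ h3) m
      congr 1
      rw [← hout e, ← hout e', QuotientAddGroup.eq]
      have h6 := (cmm A W (x : A)).sub_mem ((cmm A W (x : A)).add_mem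
        ((cmm A W (x : A)).add_mem hgw h5) h4) h3
      have h7 : Quotient.out e' - m • (c • Quotient.out e) +
          m • (c • (-α x + Quotient.out e)) + (m • (c • α x) - α x) -
          (-α x + Quotient.out e) = -Quotient.out e + Quotient.out e' := by
        rw [smul_add, smul_add, smul_neg, smul_neg]
        abel
      rw [h7] at h6
      exact h6) (by
      intro h
      exact hw0 (Set.mem_singleton_iff.mp h).symm) (by
      intro w hw w' hw' c m hm hcm
      rw [Set.mem_singleton_iff.mp hw, Set.mem_singleton_iff.mp hw'])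
    rw [hsc, Set.ncard_singleton] at h2
    have h11 : Nat.card (CYC_e (W := W) (x : A)).range = E.ncard := rfl
    have h12 : 0 < E.ncard := by
      rw [Set.ncard_pos]
      exact ⟨0, (CYC_e (W := W) (x : A)).range.zero_mem⟩
    refine hB1 A W p _ _ ?_ h2
    omega

end Pool.Agent.LC
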